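import Pool.Agent.TH685.TI.Sq
import Pool.Agent.Helper601.BT

set_option autoImplicit false
set_option maxHeartbeats 1000000

/-! # The typical size of the least `m` in `n = q + m²`

* For `ε > 0` there is `c₀ > 0` such that for all large `X` in every interval of `X` consecutive
  integers at most `ε X` integers are of the form `q + m²` with `q` prime and
  `m ≤ c₀ log X`.
* For `β, δ > 0` there is `c₁ > 0` such that for every set `A` of odd numbers of lower density at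
  least `β` for all large `x` at least `c₁ x` of the even numbers `n ≤ x` are `q + m²` with `q`
  prime, `m ∈ A` and `m ≤ δ log n`.
-/

namespace Pool.Agent.Results.MP_d48457_nt.TypicalLeastRoot

open Finset Filter

theorem lower (ε : ℝ) (hε : 0 < ε) : ∃ c₀ : ℝ, 0 < c₀ ∧ ∃ X₀ : ℕ, ∀ X : ℕ, X₀ ≤ X →
    ∀ Y : ℕ, (Set.ncard {n : ℕ | Y < n ∧ n ≤ Y + X ∧ ∃ m q : ℕ, q.Prime ∧ m ^ 2 + q = n ∧
      (m : ℝ) ≤ c₀ * Real.log X} : ℝ) ≤ ε * X := by
  classical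
  obtain ⟨C, hC, hbt⟩ := Pool.Agent.Helper601.brun_titchmarsh
  obtain ⟨R, hRd⟩ : ∃ R : ℝ, R = ε / (2 * C) := ⟨_, rfl⟩
  have hR : 0 < R := by rw [hRd]; positivity
  have hlogt : Tendsto (fun x : ℕ => Real.log (x : ℝ)) atTop atTop :=
    Real.tendsto_log_atTop.comp tendsto_natCast_atTop_atTop
  obtain ⟨X₂, hX₂⟩ := eventually_atTop.1 ((hlogt.eventually_ge_atTop (1 / R)).and
    (eventually_ge_atTop 2))
  refine ⟨R, hR, X₂, fun X hX Y => ?_⟩
  obtain ⟨h1, h2⟩ := hX₂ X hX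
  have hXr : (2 : ℝ) ≤ X := by exact_mod_cast h2
  obtain ⟨L, hL⟩ : ∃ L : ℝ, L = Real.log X := ⟨_, rfl⟩
  rw [← hL] at h1 ⊢
  have hLpos : 0 < L := by rw [hL]; exact Real.log_pos (by linarith)
  rw [div_le_iff₀ hR] at h1
  obtain ⟨N, hN⟩ : ∃ N : ℕ, N = ⌊R * L⌋₊ + 1 := ⟨_, rfl⟩
  obtain ⟨E, hE⟩ : ∃ E : ℕ → Finset ℕ, ∀ v : ℕ, E v =
      (Ioc Y (Y + X)).filter (fun n : ℕ => ∃ q : ℕ, q.Prime ∧ v + q = n) := ⟨_, fun _ => rfl⟩
  have hEc : ∀ v : ℕ, ((E v).card : ℝ) ≤ C * X / L := by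
    intro v
    obtain ⟨a, ha⟩ : ∃ a : ℕ, a = ((Y : ℤ) + 1 - v).toNat := ⟨_, rfl⟩
    have h3 : (E v).card ≤ ((range X).filter (fun k : ℕ => Nat.Prime (a + k * 1))).card := by
      apply card_le_card_of_injOn (fun n : ℕ => ((n : ℤ) - v - a).toNat)
      · intro n hn
        rw [mem_coe, hE, mem_filter, mem_Ioc] at hn
        obtain ⟨⟨hn1, hn2⟩, q, hq, hqn⟩ := hn
        have hq1 := hq.pos
        rw [mem_coe, mem_filter, mem_range]
        have e : a + ((n : ℤ) - v - a).toNat * 1 = q := by omega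
        refine ⟨?_, ?_⟩
        · show ((n : ℤ) - v - a).toNat < X
          omega
        · show Nat.Prime (a + ((n : ℤ) - v - a).toNat * 1)
          rw [e]
          exact hq
      · intro n hn n' hn' h
        rw [mem_coe, hE, mem_filter, mem_Ioc] at hn hn'
        obtain ⟨⟨hn1, hn2⟩, q, hq, hqn⟩ := hn
        obtain ⟨⟨hn1', hn2'⟩, q', hq', hqn'⟩ := hn'
        have h' : ((n : ℤ) - v - a).toNat = ((n' : ℤ) - v - a).toNat := h
        omega
    have h4 := hbt a 1 X h2 (Or.inl rfl)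
    rw [← hL] at h4
    exact le_trans (by exact_mod_cast h3) h4
  obtain ⟨B, hB⟩ : ∃ B : Finset ℕ, B = (range N).biUnion (fun m => E (m ^ 2)) := ⟨_, rfl⟩
  have hNc : (N : ℝ) ≤ 2 * (R * L) := by
    rw [hN]
    push_cast
    have := Nat.floor_le (show 0 ≤ R * L by positivity)
    linarith
  have hBc : (B.card : ℝ) ≤ ε * X := by
    have h3 : (B.card : ℝ) ≤ ∑ m ∈ range N, ((E (m ^ 2)).card : ℝ) := by
      rw [hB]
      exact_mod_cast card_biUnion_le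
    have h4 : ∑ m ∈ range N, ((E (m ^ 2)).card : ℝ) ≤ ∑ _m ∈ range N, C * X / L :=
      sum_le_sum fun p _ => hEc _
    rw [sum_const, nsmul_eq_mul, card_range] at h4
    calc (B.card : ℝ) ≤ (N : ℝ) * (C * X / L) := h3.trans h4
      _ ≤ 2 * (R * L) * (C * X / L) := by gcongr
      _ = (2 * C * R) * X := by field_simp
      _ = ε * X := by rw [hRd]; field_simp
  have hsub : {n : ℕ | Y < n ∧ n ≤ Y + X ∧ ∃ m q : ℕ, q.Prime ∧ m ^ 2 + q = n ∧
      (m : ℝ) ≤ R * L} ⊆ (B : Set ℕ) := by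
    rintro n ⟨hn1, hn2, m, q, hq, hmq, hmL⟩
    rw [mem_coe, hB, mem_biUnion]
    refine ⟨m, ?_, ?_⟩
    · rw [mem_range, hN]
      have := Nat.le_floor hmL
      omega
    · rw [hE, mem_filter, mem_Ioc]
      exact ⟨⟨hn1, hn2⟩, q, hq, hmq⟩
  have h5 := Set.ncard_le_ncard hsub (Finset.finite_toSet B)
  rw [Set.ncard_coe_finset] at h5
  have h6 : (Set.ncard {n : ℕ | Y < n ∧ n ≤ Y + X ∧ ∃ m q : ℕ, q.Prime ∧ m ^ 2 + q = n ∧
      (m : ℝ) ≤ R * L} : ℝ) ≤ B.card := by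
    exact_mod_cast h5
  exact h6.trans hBc

theorem upper (β δ : ℝ) (hβ : 0 < β) (hδ : 0 < δ) :
    ∃ c₁ : ℝ, 0 < c₁ ∧ ∀ A : Set ℕ, (∀ m ∈ A, Odd m) →
    (∀ᶠ y : ℕ in atTop, β * y ≤ Set.ncard {m : ℕ | m ∈ A ∧ m ≤ y}) →
    ∀ᶠ x : ℕ in atTop, c₁ * x ≤ Set.ncard {n : ℕ | n ≤ x ∧ Even n ∧ ∃ m q : ℕ, m ∈ A ∧ q.Prime ∧
      m ^ 2 + q = n ∧ (m : ℝ) ≤ δ * Real.log n} := by
  classical
  obtain ⟨c₁, hc₁, hs⟩ := Pool.Agent.TH685.Sq.small_squares β (δ / 2) hβ (by positivity)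
  refine ⟨c₁ / 8, by positivity, fun A hA hd => ?_⟩
  obtain ⟨y0, hd⟩ := eventually_atTop.1 hd
  obtain ⟨x0, hs⟩ := hs A (fun m hm => Nat.odd_iff.1 (hA m hm)) ⟨y0, fun y hy => by
    refine ⟨(Icc 1 y).filter (fun m => m ∈ A), filter_subset _ _,
      fun m hm => (mem_filter.1 hm).2, ?_⟩
    refine (hd y hy).trans ?_
    have h1 : {m : ℕ | m ∈ A ∧ m ≤ y} ⊆ (((Icc 1 y).filter (fun m => m ∈ A) : Finset ℕ) : Set ℕ) := by
      rintro m ⟨hm1, hm2⟩
      have := (hA m hm1).pos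
      rw [mem_coe, mem_filter, mem_Icc]
      exact ⟨⟨by omega, hm2⟩, hm1⟩
    have h2 := Set.ncard_le_ncard h1 (Finset.finite_toSet _)
    rw [Set.ncard_coe_finset] at h2
    exact_mod_cast h2⟩
  obtain ⟨w0, hw0⟩ := exists_nat_ge (16 / c₁ ^ 2)
  filter_upwards [eventually_ge_atTop (2 * x0 + 2 * w0 + 40)] with X hX
  obtain ⟨x, hx⟩ : ∃ x : ℕ, x = X / 2 := ⟨_, rfl⟩
  obtain ⟨T, hT1, hT2, hT3⟩ := hs x (by omega)
  have hx20 : 20 ≤ x := by omega
  have hxw : w0 ≤ x := by omega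
  have hxr : (20 : ℝ) ≤ x := by exact_mod_cast hx20
  have hwr : (w0 : ℝ) ≤ x := by exact_mod_cast hxw
  have hXx : (X : ℝ) ≤ 2 * x + 1 := by
    have : X ≤ 2 * x + 1 := by omega
    exact_mod_cast this
  have hbig : c₁ / 2 * x ≤ ((T.filter (fun n => x < n ^ 2)).card : ℝ) := by
    have h1 : T.card ≤ (T.filter (fun n => x < n ^ 2)).card + Nat.sqrt x := by
      have h2 := card_filter_add_card_filter_not (s := T) (fun n => x < n ^ 2)
      have h3 : (T.filter (fun n => ¬ x < n ^ 2)).card ≤ (Icc 1 (Nat.sqrt x)).card := by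
        apply card_le_card
        intro n hn
        rw [mem_filter] at hn
        have h4 := mem_Icc.1 (hT1 hn.1)
        rw [mem_Icc]
        refine ⟨by omega, ?_⟩
        rw [Nat.le_sqrt']
        exact not_lt.1 hn.2
      rw [Nat.card_Icc, Nat.add_sub_cancel] at h3
      omega
    have h2 : (T.card : ℝ) ≤ ((T.filter (fun n => x < n ^ 2)).card : ℝ) + (Nat.sqrt x : ℝ) := by
      exact_mod_cast h1
    have h3 : (Nat.sqrt x : ℝ) ≤ √(x : ℝ) := Real.nat_sqrt_le_real_sqrt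
    have h4 : √(x : ℝ) ≤ c₁ / 2 * x := by
      rw [Real.sqrt_le_left (by positivity)]
      have h5 : 16 / c₁ ^ 2 ≤ x := hw0.trans hwr
      rw [div_le_iff₀ (by positivity)] at h5
      have h6 : (x : ℝ) * 16 ≤ x * (x * c₁ ^ 2) := mul_le_mul_of_nonneg_left h5 (by positivity)
      nlinarith
    linarith
  obtain ⟨G, hG⟩ : ∃ G : Set ℕ, G = {n : ℕ | n ≤ X ∧ Even n ∧ ∃ m q : ℕ, m ∈ A ∧ q.Prime ∧
      m ^ 2 + q = n ∧ (m : ℝ) ≤ δ * Real.log n} := ⟨_, rfl⟩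
  rw [← hG]
  have hGfin : G.Finite := by
    rw [hG]
    exact (Set.finite_Iic X).subset (fun n hn => hn.1)
  have hsub : (((T.filter (fun n => x < n ^ 2)).image (fun n => 2 * n) : Finset ℕ) : Set ℕ) ⊆ G := by
    intro N hN
    rw [mem_coe, mem_image] at hN
    obtain ⟨n, hn, rfl⟩ := hN
    rw [mem_filter] at hn
    have h1 := mem_Icc.1 (hT1 hn.1)
    obtain ⟨m, hmA, q, hq, hmL, hmq⟩ := hT3 n hn.1
    rw [hG]
    refine ⟨by omega, ⟨n, by omega⟩, m, q, hmA, hq, hmq, ?_⟩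
    have h2 : (x : ℝ) < (n : ℝ) ^ 2 := by exact_mod_cast hn.2
    have hn3 : (3 : ℝ) ≤ n := by exact_mod_cast h1.1
    have h3 : Real.log x ≤ 2 * Real.log n := by
      have := Real.log_le_log (by linarith) h2.le
      rw [Real.log_pow] at this
      exact_mod_cast this
    have h4 : Real.log n ≤ Real.log ((2 * n : ℕ) : ℝ) := by
      apply Real.log_le_log (by linarith)
      have : n ≤ 2 * n := by omega
      exact_mod_cast this
    calc (m : ℝ) ≤ δ / 2 * Real.log x := hmL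
      _ ≤ δ / 2 * (2 * Real.log ((2 * n : ℕ) : ℝ)) := by gcongr; linarith
      _ = δ * Real.log ((2 * n : ℕ) : ℝ) := by ring
  have hcard := Set.ncard_le_ncard hsub hGfin
  rw [Set.ncard_coe_finset, card_image_of_injective _ (fun a b h => by
    have h' : 2 * a = 2 * b := h
    omega)] at hcard
  have hcr : ((T.filter (fun n => x < n ^ 2)).card : ℝ) ≤ (G.ncard : ℝ) := by exact_mod_cast hcard
  refine le_trans ?_ (hbig.trans hcr)
  have : c₁ / 8 * (X : ℝ) ≤ c₁ / 8 * (2 * x + 1) := by gcongr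
  nlinarith

/-- **The least `m` with `n - m²` prime is typically of the order `log n`.**

(1) For `ε > 0` there is `c₀ > 0` such that for all large `X`, in every interval `(Y, Y + X]` at most
`ε X` integers are `m² + q` with `q` prime and `m ≤ c₀ log X`.

(2) For `β, δ > 0` there is `c₁ > 0` such that for every set `A` of odd numbers with at least `β y`
elements up to `y` for all large `y`: for all large `x` at least `c₁ x` even numbers `n ≤ x` are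
`m² + q` with `q` prime, `m ∈ A` and `m ≤ δ log n`. -/
theorem result :
    (∀ ε : ℝ, 0 < ε → ∃ c₀ : ℝ, 0 < c₀ ∧ ∃ X₀ : ℕ, ∀ X : ℕ, X₀ ≤ X →
      ∀ Y : ℕ, (Set.ncard {n : ℕ | Y < n ∧ n ≤ Y + X ∧ ∃ m q : ℕ, q.Prime ∧ m ^ 2 + q = n ∧
        (m : ℝ) ≤ c₀ * Real.log X} : ℝ) ≤ ε * X) ∧
    (∀ β δ : ℝ, 0 < β → 0 < δ →
      ∃ c₁ : ℝ, 0 < c₁ ∧ ∀ A : Set ℕ, (∀ m ∈ A, Odd m) →
      (∀ᶠ y : ℕ in atTop, β * y ≤ Set.ncard {m : ℕ | m ∈ A ∧ m ≤ y}) →
      ∀ᶠ x : ℕ in atTop, c₁ * x ≤ Set.ncard {n : ℕ | n ≤ x ∧ Even n ∧ ∃ m q : ℕ, m ∈ A ∧ q.Prime ∧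
        m ^ 2 + q = n ∧ (m : ℝ) ≤ δ * Real.log n}) :=
  ⟨fun ε hε => lower ε hε, fun β δ hβ hδ => upper β δ hβ hδ⟩

end Pool.Agent.Results.MP_d48457_nt.TypicalLeastRoot
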